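import Mathlib
import Pool.Agent.H68R2.BP.Props2

open scoped ComplexOrder InnerProductSpace ComplexConjugate Topology
open Finset Filter

noncomputable section

namespace H68R2.BP

open H759R2.Kad H744R2.KZ

namespace RInfaux

variable {H : Type} [NormedAddCommGroup H] [InnerProductSpace ℂ H] [CompleteSpace H]

theorem inner_sum {ι : Type} [Fintype ι] (a : ι → (H →L[ℂ] H)) (v : H) :
    (⟪v, (∑ i, star (a i) * a i) v⟫_ℂ) = ((∑ i, ‖a i v‖ ^ 2 : ℝ) : ℂ) := by
  rw [_root_.sum_apply, _root_.inner_sum]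
  push_cast
  refine Finset.sum_congr rfl fun i _ => ?_
  show ⟪v, (star (a i)) (a i v)⟫_ℂ = _
  rw [ContinuousLinearMap.star_eq_adjoint,
    ContinuousLinearMap.adjoint_inner_right, inner_self_eq_norm_sq_to_K]
  rfl

theorem col_vec {ι : Type} [Fintype ι] (a : ι → (H →L[ℂ] H)) (v : H) :
    ∑ i, ‖a i v‖ ^ 2 ≤ colN a * ‖v‖ ^ 2 := by
  have h := inner_sum a v
  have h2 : ‖(⟪v, (∑ i, star (a i) * a i) v⟫_ℂ)‖ ≤ ‖v‖ * (colN a * ‖v‖) := by
    refine (norm_inner_le_norm _ _).trans ?_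
    exact mul_le_mul_of_nonneg_left (ContinuousLinearMap.le_opNorm _ _) (norm_nonneg _)
  rw [h, Complex.norm_real, Real.norm_of_nonneg (by positivity)] at h2
  linarith

theorem col_le {ι : Type} [Fintype ι] (a : ι → (H →L[ℂ] H)) (K : ℝ) (hK : 0 ≤ K)
    (h : ∀ v, ∑ i, ‖a i v‖ ^ 2 ≤ K * ‖v‖ ^ 2) : colN a ≤ K := by
  have hnn : 0 ≤ ∑ i, star (a i) * a i := Finset.sum_nonneg fun i _ => star_mul_self_nonneg _
  unfold colN
  rw [CStarAlgebra.norm_le_iff_le_algebraMap _ hK hnn, ContinuousLinearMap.le_def,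
    ContinuousLinearMap.isPositive_def']
  refine ⟨?_, ?_⟩
  · apply IsSelfAdjoint.sub
    · rw [Algebra.algebraMap_eq_smul_one]
      exact IsSelfAdjoint.smul (by simp [IsSelfAdjoint]) (IsSelfAdjoint.one _)
    · exact IsSelfAdjoint.of_nonneg hnn
  · intro v
    rw [ContinuousLinearMap.reApplyInnerSelf_apply]
    have e1 := inner_sum a v
    rw [_root_.sub_apply, inner_sub_left, map_sub]
    have e2 : RCLike.re (⟪(∑ i, star (a i) * a i) v, v⟫_ℂ) = ∑ i, ‖a i v‖ ^ 2 := by
      rw [← inner_conj_symm, e1, Complex.conj_ofReal]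
      exact Complex.ofReal_re _
    have e3 : RCLike.re (⟪(algebraMap ℝ (H →L[ℂ] H) K) v, v⟫_ℂ) = K * ‖v‖ ^ 2 := by
      rw [Algebra.algebraMap_eq_smul_one]
      show RCLike.re (⟪(K • (v : H)), v⟫_ℂ) = K * ‖v‖ ^ 2
      rw [inner_smul_left_eq_smul, Complex.real_smul, inner_self_eq_norm_sq_to_K]
      have e4 : (K : ℂ) * ((‖v‖ : ℝ) : ℂ) ^ 2 = ((K * ‖v‖ ^ 2 : ℝ) : ℂ) := by push_cast; ring
      exact (congrArg Complex.re e4).trans (Complex.ofReal_re _)
    rw [e2, e3]
    linarith [h v]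

theorem col_nonneg {ι : Type} [Fintype ι] (a : ι → (H →L[ℂ] H)) : 0 ≤ colN a := norm_nonneg _

theorem row_nonneg {ι : Type} [Fintype ι] (a : ι → (H →L[ℂ] H)) : 0 ≤ rowN a := norm_nonneg _

theorem row_eq {ι : Type} [Fintype ι] (a : ι → (H →L[ℂ] H)) :
    rowN a = colN (fun i => star (a i)) := by
  unfold rowN colN
  simp only [star_star]

theorem col_comp {ι : Type} [Fintype ι] (a : ι → (H →L[ℂ] H)) (p q : H →L[ℂ] H) (hp : ‖p‖ ≤ 1)
    (hq : ‖q‖ ≤ 1) : colN (fun i => p * a i * q) ≤ colN a := by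
  apply col_le _ _ (col_nonneg a)
  intro v
  calc ∑ i, ‖(p * a i * q) v‖ ^ 2 ≤ ∑ i, ‖a i (q v)‖ ^ 2 := by
        apply Finset.sum_le_sum
        intro i _
        apply pow_le_pow_left₀ (norm_nonneg _)
        show ‖p (a i (q v))‖ ≤ ‖a i (q v)‖
        calc ‖p (a i (q v))‖ ≤ ‖p‖ * ‖a i (q v)‖ := p.le_opNorm _
          _ ≤ 1 * ‖a i (q v)‖ := mul_le_mul_of_nonneg_right hp (norm_nonneg _)
          _ = _ := one_mul _
    _ ≤ colN a * ‖q v‖ ^ 2 := col_vec a (q v)
    _ ≤ colN a * ‖v‖ ^ 2 := by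
        apply mul_le_mul_of_nonneg_left _ (col_nonneg a)
        apply pow_le_pow_left₀ (norm_nonneg _)
        calc ‖q v‖ ≤ ‖q‖ * ‖v‖ := q.le_opNorm _
          _ ≤ 1 * ‖v‖ := mul_le_mul_of_nonneg_right hq (norm_nonneg _)
          _ = _ := one_mul _

theorem row_comp {ι : Type} [Fintype ι] (a : ι → (H →L[ℂ] H)) (p q : H →L[ℂ] H) (hp : ‖p‖ ≤ 1)
    (hq : ‖q‖ ≤ 1) : rowN (fun i => p * a i * q) ≤ rowN a := by
  rw [row_eq, row_eq a]
  have e : (fun i => star (p * a i * q)) = fun i => star q * star (a i) * star p := by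
    funext i
    rw [star_mul, star_mul, mul_assoc]
  rw [e]
  exact col_comp _ _ _ (by rwa [norm_star]) (by rwa [norm_star])

theorem norm_pr {z : H →L[ℂ] H} (hz : IsPr z) : ‖z‖ ≤ 1 := by
  have h : ‖z‖ * ‖z‖ = ‖z‖ := by
    rw [← CStarRing.norm_star_mul_self, hz.1, hz.2]
  nlinarith [norm_nonneg z]

end RInfaux

open RInfaux in
theorem prove_R_inf (h1 : R_mod) (h2 : R_cor) : R_inf := by
  intro H _ _ _ M P C hP z hz hI
  refine ⟨3 * C ^ 2, by positivity, ?_⟩
  intro ε hε
  obtain ⟨n, hn⟩ := exists_nat_one_div_lt hε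
  obtain ⟨s, hs1, hs2⟩ := hI (n + 1)
  obtain ⟨e, he⟩ : ∃ e : Fin (n + 1) → Fin (n + 1) → (H →L[ℂ] H), ∀ i j, e i j = s i * star (s j) :=
    ⟨_, fun _ _ => rfl⟩
  have hzM : z ∈ M := hz.2.1
  have hcz : ∀ a ∈ M, a * z = z * a := by
    intro a ha
    have := hz.2.2 a ha
    first
      | exact this
      | exact this.symm
  have hsz : ∀ i, s i * z = s i := fun i => by rw [hcz _ (hs1 i).1, (hs1 i).2]
  have hzs : ∀ i, z * star (s i) = star (s i) := fun i => by
    have := congrArg star (hsz i)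
    rwa [star_mul, hz.1.1] at this
  have heM : ∀ i j, e i j ∈ M := fun i j => by
    rw [he]
    exact mul_mem (hs1 i).1 (star_mem (hs1 j).1)
  have hMU : MU e := by
    constructor
    · intro i j l m
      simp only [he]
      have : s i * star (s j) * (s l * star (s m)) = s i * (star (s j) * s l) * star (s m) := by
        simp only [mul_assoc]
      rw [this, hs2]
      split_ifs
      · rw [hsz]
      · rw [mul_zero, zero_mul]
    · intro i j
      rw [he, he, star_mul, star_star]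
  have hze : ∀ i j, z * e i j = e i j := fun i j => by
    rw [he, ← mul_assoc, (hs1 i).2]
  obtain ⟨Q', hQ'⟩ := h1 H M P C hP z hz (n + 1) e heM hMU hze
  obtain ⟨t, ht⟩ : ∃ t, t = s 0 := ⟨_, rfl⟩
  have htM : t ∈ M := by rw [ht]; exact (hs1 0).1
  have htt : star t * t = z := by rw [ht, hs2]; simp
  have htz : t * z = t := by rw [ht]; exact hsz 0
  have hzt : z * t = t := by rw [ht]; exact (hs1 0).2
  have hzst : z * star t = star t := by rw [ht]; exact hzs 0
  have hn1 : ‖t‖ ≤ 1 := by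
    have h : ‖t‖ * ‖t‖ = ‖z‖ := by
      rw [← CStarRing.norm_star_mul_self, htt]
    have := norm_pr hz.1
    nlinarith [norm_nonneg t]
  have hn2 : ‖star t‖ ≤ 1 := by rwa [norm_star]
  let Q : (H →L[ℂ] H) →ₗ[ℂ] (H →L[ℂ] H) :=
    { toFun := fun x => star t * Q' (t * x * star t) * t
      map_add' := fun x y => by
        rw [mul_add, add_mul, map_add, mul_add, add_mul]
      map_smul' := fun c x => by
        simp only [mul_smul_comm, smul_mul_assoc, map_smul, RingHom.id_apply] }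
  have hQ : ∀ x, Q x = star t * Q' (t * x * star t) * t := fun _ => rfl
  refine ⟨Q, ?_, ?_, ?_⟩
  · intro x
    refine ⟨?_, ?_⟩
    · rw [hQ]
      exact mul_mem (mul_mem (star_mem htM) (hQ'.2.1 _).1) htM
    · rw [hQ, ← mul_assoc, ← mul_assoc, hzst]
  · intro m hm hzm
    have hmz : m * z = m := by rw [hcz m hm, hzm]
    rw [hQ, hQ'.2.2.1 (t * m * star t) (mul_mem (mul_mem htM hm) (star_mem htM))
      (by rw [← mul_assoc, ← mul_assoc, hzt])]
    have : star t * (t * m * star t) * t = (star t * t) * m * (star t * t) := by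
      simp only [mul_assoc]
    rw [this, htt, hzm, hmz]
  · intro ι _ a
    have hcor := h2 H M C hP.1 z hz (n + 1) e heM hMU Q' hQ' 0 ι (fun i => t * a i * star t) (by
      intro i
      rw [he, ← ht]
      refine ⟨?_, ?_⟩
      · have : t * star t * (t * a i * star t) = t * (star t * t) * a i * star t := by
          simp only [mul_assoc]
        rw [this, htt, htz]
      · have : t * a i * star t * (t * star t) = t * a i * ((star t * t) * star t) := by
          simp only [mul_assoc]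
        rw [this, htt, hzst])
    have hC : 0 ≤ 3 * C ^ 2 := by positivity
    have hinv : (((n + 1 : ℕ) : ℝ))⁻¹ ≤ ε := by
      have := hn.le
      rw [one_div] at this
      push_cast
      exact this
    have hc1 : colN (fun i => t * a i * star t) ≤ colN a := col_comp a t (star t) hn1 hn2
    have hr1 : rowN (fun i => t * a i * star t) ≤ rowN a := row_comp a t (star t) hn1 hn2
    have hc0 := col_nonneg a
    have hr0 := row_nonneg a
    have hc00 := col_nonneg (fun i => t * a i * star t)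
    have hr00 := row_nonneg (fun i => t * a i * star t)
    have key : ∀ x y x' y' : ℝ, 0 ≤ x → 0 ≤ y' → x ≤ x' → 0 ≤ y → y ≤ y' →
        x + y / ((n + 1 : ℕ) : ℝ) ≤ x' + ε * y' := by
      intro x y x' y' _ hy' hx hy0 hy
      have h5 : y / ((n + 1 : ℕ) : ℝ) ≤ ε * y' := by
        rw [div_eq_mul_inv, mul_comm]
        exact mul_le_mul hinv hy hy0 hε.le
      linarith
    refine ⟨?_, ?_⟩
    · calc colN (fun i => Q (a i)) = colN (fun i => star t * Q' (t * a i * star t) * t) := rfl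
        _ ≤ colN (fun i => Q' (t * a i * star t)) := col_comp _ _ _ hn2 hn1
        _ ≤ 3 * C ^ 2 * (colN (fun i => t * a i * star t) +
            rowN (fun i => t * a i * star t) / ((n + 1 : ℕ) : ℝ)) := hcor.1
        _ ≤ _ := mul_le_mul_of_nonneg_left (key _ _ _ _ hc00 hr0 hc1 hr00 hr1) hC
    · calc rowN (fun i => Q (a i)) = rowN (fun i => star t * Q' (t * a i * star t) * t) := rfl
        _ ≤ rowN (fun i => Q' (t * a i * star t)) := row_comp _ _ _ hn2 hn1
        _ ≤ 3 * C ^ 2 * (rowN (fun i => t * a i * star t) +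
            colN (fun i => t * a i * star t) / ((n + 1 : ℕ) : ℝ)) := hcor.2
        _ ≤ _ := mul_le_mul_of_nonneg_left (key _ _ _ _ hr00 hc0 hr1 hc00 hc1) hC

end H68R2.BP
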